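import Pool.Agent.Helper94.KC.HS
import Pool.Agent.Helper85.KV.V2

set_option autoImplicit false

/-!
# The multi-swap family in the sum over the families
-/

open Finset

namespace KC

open KF

/-! ### The family (N) with five roots -/

/-- Integer form of the integrand of (N) at the bound `b / a`. -/
def gNz (a b : ℕ) (μ : ℕ → ℕ) (κ : ℕ → ℕ → Fin 5) (m : ℕ) : ℤ :=
  (μ (m % 2 ^ 10) : ℤ) * (b - a * ((decide (κ (m % 2 ^ 10) (m / 2 ^ 10 % 2 ^ 10) =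
    κ (m % 2 ^ 10) (m / 2 ^ 20 % 2 ^ 10)) &&
      m.testBit (30 + (κ (m % 2 ^ 10) (m / 2 ^ 10 % 2 ^ 10)).val)).toNat : ℤ))

theorem gNz_cast {a b : ℕ} {p : ℝ} (hab : (a : ℝ) * p = b) (μ : ℕ → ℕ) (κ : ℕ → ℕ → Fin 5)
    (m : ℕ) : ((gNz a b μ κ m : ℤ) : ℝ) = a * gN (fun r => (μ r : ℝ)) κ p m := by
  unfold gNz gN
  push_cast
  rw [toNat_b2r, ← hab]
  ring

theorem ev_mu_bd (k : ℕ) (μ : ℕ → ℕ) : ∃ X : ℝ, 0 ≤ X ∧ ∀ (n : ℕ)
    (E : Fin n → Fin n → Fin n → Bool) (w : Fin n → ℝ), Wt w →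
    Ev 7 w (fun φ => (μ (msk E φ % 2 ^ k) : ℝ)) ≤ X :=
  ⟨((∑ r ∈ range (2 ^ k), μ r : ℕ) : ℝ), Nat.cast_nonneg _, fun _ E _ hw => ev_mu_le E hw k μ⟩

/-- The family (N). -/
theorem fok_gN {a b : ℕ} {p : ℝ} (hab : (a : ℝ) * p = b) {μ : ℕ → ℕ} (κ : ℕ → ℕ → Fin 5) :
    FOK p (gNz a b μ κ) (fun m => (a : ℤ) * μ (m % 2 ^ 10)) (fun _ => 0) := by
  intro η hη
  obtain ⟨X, hX0, hX⟩ := ev_mu_bd 10 μ
  set M : ℝ := a * X with hM
  have hM0 : 0 ≤ M := by positivity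
  set t : ℝ := min 1 (η / (4 * (M + 1))) with ht
  have ht0 : 0 < t := lt_min one_pos (by positivity)
  have ht1 : t ≤ 1 := min_le_left _ _
  have ht2 : t ≤ η / (4 * (M + 1)) := min_le_right _ _
  refine ⟨3 * t * (η / (2 * (M + 1))), by positivity, fun n E w ho hd => ?_⟩
  have h1 := kcN ho.free ho.wt (μ := fun r => (μ r : ℝ)) (fun r => Nat.cast_nonneg _) κ ht0 ht1
  have h2 := hX n E w ho.wt
  have h3 : dens E w ≤ L := dens_le_L ho.free ho.wt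
  set ε : ℝ := (L - dens E w) / (3 * t) + 2 * t with hε
  have hε0 : 0 ≤ ε := by
    have : 0 ≤ (L - dens E w) / (3 * t) := div_nonneg (by linarith) (by positivity)
    linarith
  have hε1 : ε ≤ η / (M + 1) := by
    have g1 : (L - dens E w) / (3 * t) ≤ η / (2 * (M + 1)) := by
      rw [div_le_iff₀ (by positivity)]
      linarith
    have g2 : η / (M + 1) = η / (2 * (M + 1)) + 2 * (η / (4 * (M + 1))) := by
      field_simp
      ring
    rw [g2, hε]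
    linarith
  have hεM : ε * M ≤ η := by
    have g1 : ε * M ≤ η / (M + 1) * M := mul_le_mul_of_nonneg_right hε1 hM0
    have g2 : η / (M + 1) * M ≤ η := by
      rw [div_mul_eq_mul_div, div_le_iff₀ (by positivity)]
      nlinarith
    linarith
  rw [Em_const E ho.wt]
  unfold Em
  have e1 : Ev 7 w (fun φ => ((gNz a b μ κ (msk E φ) : ℤ) : ℝ)) =
      a * Ev 7 w (fun φ => gN (fun r => (μ r : ℝ)) κ L (msk E φ)) + (p - L) *
        (a * Ev 7 w (fun φ => (μ (msk E φ % 2 ^ 10) : ℝ))) := by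
    rw [← Ev_mul, ← Ev_mul, ← Ev_mul, ← Ev_add]
    refine Ev_congr 7 w fun φ => ?_
    rw [gNz_cast hab, gN_split _ _ L p]
    ring
  have e2 : Ev 7 w (fun φ => (((a : ℤ) * μ (msk E φ % 2 ^ 10) : ℤ) : ℝ)) =
      a * Ev 7 w (fun φ => (μ (msk E φ % 2 ^ 10) : ℝ)) := by
    rw [← Ev_mul]
    exact Ev_congr 7 w fun φ => by push_cast; rfl
  rw [e1, e2]
  have h4 : (a : ℝ) * (-ε * Ev 7 w (fun φ => (μ (msk E φ % 2 ^ 10) : ℝ))) ≤
      a * Ev 7 w (fun φ => gN (fun r => (μ r : ℝ)) κ L (msk E φ)) :=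
    mul_le_mul_of_nonneg_left h1 (Nat.cast_nonneg _)
  have h5 : (a : ℝ) * (ε * Ev 7 w (fun φ => (μ (msk E φ % 2 ^ 10) : ℝ))) ≤
      a * (ε * X) :=
    mul_le_mul_of_nonneg_left (mul_le_mul_of_nonneg_left h2 hε0) (Nat.cast_nonneg _)
  have h6 : (a : ℝ) * (ε * X) = ε * M := by
    rw [hM]; ring
  simp only [Int.cast_zero, mul_zero, add_zero]
  linarith

end KC
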