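import Pool.Agent.Helper94.KC.HS
import Pool.Agent.Helper94.KC.HSN
import Pool.Agent.Helper25.K4.Asm2
import Pool.Agent.Helper13.KC.Glue
import Pool.Agent.Helper13.KC.TrM
import Pool.Agent.Helper34.KV.V5
import Pool.Agent.Helper85.KV.N3

set_option autoImplicit false

/-!
# All the families together
-/

open Finset

namespace KC

open KF

/-- A certificate function with its two derivatives: valid and invariant. -/
structure FF (p : ℝ) (S A B : ℕ → ℤ) : Prop where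
  iS : Inv7 S
  iA : Inv7 A
  iB : Inv7 B
  ok : FOK p S A B

theorem FF.add {p : ℝ} {S A B S' A' B' : ℕ → ℤ} (h : FF p S A B) (h' : FF p S' A' B') :
    FF p (fun m => S m + S' m) (fun m => A m + A' m) (fun m => B m + B' m) :=
  ⟨h.iS.add h'.iS, h.iA.add h'.iA, h.iB.add h'.iB, h.ok.add h'.ok⟩

theorem FF.congr {p : ℝ} {S A B S' A' B' : ℕ → ℤ} (h : FF p S A B) (h1 : ∀ m, S' m = S m)
    (h2 : ∀ m, A' m = A m) (h3 : ∀ m, B' m = B m) : FF p S' A' B' := by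
  obtain rfl : S' = S := funext h1
  obtain rfl : A' = A := funext h2
  obtain rfl : B' = B := funext h3
  exact h

theorem fam_zero (Tr : List (List ℕ)) (m : ℕ) : fam Tr (fun _ => 0) m = 0 := by
  unfold fam
  simp

theorem fam_smul (Tr : List (List ℕ)) (c : ℤ) (g : ℕ → ℤ) (m : ℕ) :
    fam Tr (fun m => c * g m) m = c * fam Tr g m := by
  unfold fam
  exact List.sum_map_mul_left ..

/-- Symmetrisation of an integrand. -/
theorem FF.of_fam {p : ℝ} {g a b : ℕ → ℤ} {Tr gens : List (List ℕ)}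
    {certs : List (List (ℕ × List ℕ))} (hTr : invAll Tr gens certs = true) (h : FOK p g a b)
    (hg : ∀ W ∈ gens, ∀ m, Adm m → g (awl W m) = g m)
    (ha : ∀ W ∈ gens, ∀ m, Adm m → a (awl W m) = a m)
    (hb : ∀ W ∈ gens, ∀ m, Adm m → b (awl W m) = b m) :
    FF p (KC.fam Tr g) (KC.fam Tr a) (KC.fam Tr b) :=
  ⟨Inv7.fam hTr hg, Inv7.fam hTr ha, Inv7.fam hTr hb, h.fam hTr⟩

/-! ## Square terms -/

theorem ff_5 {p : ℝ} {T : Tab} {gens : ℕ → List (List ℕ)} {cert : List (ℕ × List (List ℕ))}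
    (h : T.Good gens cert) (hp : ∀ t < T.NT, PsdT T t) :
    FF p (fam tree5.tr T.G5) (fun _ => 0) (fun _ => 0) :=
  (FF.of_fam invT5 (fok_G5 h hp) (Tab.G5_inv h) (fun _ _ _ _ => rfl)
    (fun _ _ _ _ => rfl)).congr (fun _ => rfl) (fun m => (fam_zero _ m).symm)
    (fun m => (fam_zero _ m).symm)

theorem ff_3 {p : ℝ} {T : Tab} {AT : ℕ → ℕ → BT} (h : T.Good3 AT) (hp : ∀ t < 2, PsdT T t) :
    FF p (fam tree3.tr T.G3) (fun _ => 0) (fun _ => 0) :=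
  (FF.of_fam invT3 (fok_G3 h hp) (Tab.G3_inv h) (fun _ _ _ _ => rfl)
    (fun _ _ _ _ => rfl)).congr (fun _ => rfl) (fun m => (fam_zero _ m).symm)
    (fun m => (fam_zero _ m).symm)

theorem ff_1 {p : ℝ} {T : Tab} (h : T.Good1) (hp : PsdT T 0) :
    FF p (fam tree1.tr T.G1) (fun _ => 0) (fun _ => 0) :=
  (FF.of_fam invT1 (fok_G1 h hp) (Tab.G1_inv h) (fun _ _ _ _ => rfl)
    (fun _ _ _ _ => rfl)).congr (fun _ => rfl) (fun m => (fam_zero _ m).symm)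
    (fun m => (fam_zero _ m).symm)

/-! ## Degree equations -/

theorem ff_D {T : TabD} {p : ℝ} (h : T.Good) (hA : (T.A : ℝ) * p = T.B) :
    FF p (fam treeD.tr T.GD) (fun _ => 0) (fun m => (T.A : ℤ) * fam treeD.tr T.HD m) :=
  (FF.of_fam invTD (fok_GD hA) (TabD.GD_inv h) (fun _ _ _ _ => rfl)
    (fun W hW m hm => by rw [TabD.HD_inv h W hW m hm])).congr (fun _ => rfl)
    (fun m => (fam_zero _ m).symm) (fun m => (fam_smul _ _ _ m).symm)

/-! ## Cubic families -/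

theorem fok_GV {T : VTab} {p : ℝ} (h : T.Good) (hG : T.ckG = true) (hA : 0 < T.PA)
    (hp : (T.PA : ℝ) * p = T.PB) : FOK p T.GV (fun m => (T.PA : ℤ) * T.GA m) (fun _ => 0) := by
  refine FOK.of_lin (K := 2 * T.PA * T.MB) fun n E w ho => ?_
  have h1 := VTab.ev_GV h hG hA ho
  have hA' : (T.PA : ℝ) ≠ 0 := by positivity
  have h2 : (T.PB : ℝ) / T.PA = p := by rw [← hp]; field_simp
  rw [h2] at h1
  rw [Em_const E ho.wt, Em_smul]
  unfold Em
  push_cast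
  linarith

theorem ff_V {T : VTab} {p : ℝ} (h : T.Good) (hG : T.ckG = true) (hA : 0 < T.PA)
    (hp : (T.PA : ℝ) * p = T.PB) :
    FF p (fam treeM.tr T.GV) (fun m => (T.PA : ℤ) * fam treeM.tr T.GA m) (fun _ => 0) :=
  (FF.of_fam invTM (fok_GV h hG hA hp) (VTab.GV_inv h)
    (fun W hW m hm => by rw [VTab.GA_inv h W hW m hm]) (fun _ _ _ _ => rfl)).congr (fun _ => rfl)
    (fun m => (fam_smul _ _ _ m).symm) (fun m => (fam_zero _ m).symm)

/-! ## Multi-swap -/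

theorem fok_GN {N : NTab} {T : Tab} {gens : ℕ → List (List ℕ)} {cert : List (ℕ × List (List ℕ))}
    {OFF : ℕ} {p : ℝ} (h : T.Good gens cert) (hN : N.GoodN T OFF) (hp : (N.A : ℝ) * p = N.B) :
    FOK p (N.GN T) (fun m => (N.A : ℤ) * N.HM T m) (fun _ => 0) := by
  intro η hη
  obtain ⟨θ, hθ, h1⟩ := N.em_GN' h hN η hη
  refine ⟨θ, hθ, fun n E w ho hd => ?_⟩
  have h2 := h1 n E w ho hd
  rw [Em_const E ho.wt, Em_smul]
  rw [← hp] at h2
  push_cast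
  linarith

theorem ff_N {N : NTab} {T : Tab} {gens : ℕ → List (List ℕ)} {cert : List (ℕ × List (List ℕ))}
    {OFF : ℕ} {p : ℝ} (h : T.Good gens cert) (hN : N.GoodN T OFF)
    (hP : ∀ t < T.NT, ∀ W ∈ gens t, ∃ p, N.ckP T t W p = true) (hp : (N.A : ℝ) * p = N.B) :
    FF p (fam tree5.tr (N.GN T)) (fun m => (N.A : ℤ) * fam tree5.tr (N.HM T) m) (fun _ => 0) :=
  (FF.of_fam invT5 (fok_GN h hN hp) (N.GN_inv h hP)
    (fun W hW m hm => by rw [N.HM_inv h W hW m hm]) (fun _ _ _ _ => rfl)).congr (fun _ => rfl)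
    (fun m => (fam_smul _ _ _ m).symm) (fun m => (fam_zero _ m).symm)

/-! ## The sum -/

/-- The five families of helper13's evaluation. -/
theorem ff_all {p : ℝ} {T5' T3' T1' : Tab} {gens : ℕ → List (List ℕ)}
    {cert : List (ℕ × List (List ℕ))} {AT : ℕ → ℕ → BT} {TV : VTab} {TD : TabD}
    (g5 : T5'.Good gens cert) (p5 : ∀ t < T5'.NT, PsdT T5' t)
    (g3 : T3'.Good3 AT) (p3 : ∀ t < 2, PsdT T3' t)
    (g1 : T1'.Good1) (p1 : PsdT T1' 0)
    (gV : TV.Good) (hG : TV.ckG = true) (hA : 0 < TV.PA) (hV : (TV.PA : ℝ) * p = TV.PB)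
    (gD : TD.Good) (hD : (TD.A : ℝ) * p = TD.B) :
    FF p (fun m => fam tree5.tr T5'.G5 m + (fam tree3.tr T3'.G3 m + (fam tree1.tr T1'.G1 m +
      (fam treeM.tr TV.GV m + fam treeD.tr TD.GD m))))
      (fun m => (TV.PA : ℤ) * fam treeM.tr TV.GA m)
      (fun m => (TD.A : ℤ) * fam treeD.tr TD.HD m) :=
  ((ff_5 g5 p5).add ((ff_3 g3 p3).add ((ff_1 g1 p1).add ((ff_V gV hG hA hV).add
    (ff_D gD hD))))).congr (fun _ => rfl) (fun m => by ring) (fun m => by ring)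

/-- The same with the multi-swap family as a last summand. -/
theorem ff_allN {p : ℝ} {T5' T3' T1' : Tab} {gens : ℕ → List (List ℕ)}
    {cert : List (ℕ × List (List ℕ))} {AT : ℕ → ℕ → BT} {TV : VTab} {TD : TabD} {N : NTab}
    {OFF : ℕ}
    (g5 : T5'.Good gens cert) (p5 : ∀ t < T5'.NT, PsdT T5' t)
    (g3 : T3'.Good3 AT) (p3 : ∀ t < 2, PsdT T3' t)
    (g1 : T1'.Good1) (p1 : PsdT T1' 0)
    (gV : TV.Good) (hG : TV.ckG = true) (hA : 0 < TV.PA) (hV : (TV.PA : ℝ) * p = TV.PB)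
    (gD : TD.Good) (hD : (TD.A : ℝ) * p = TD.B)
    (gN : N.GoodN T5' OFF) (hP : ∀ t < T5'.NT, ∀ W ∈ gens t, ∃ p, N.ckP T5' t W p = true)
    (hN : (N.A : ℝ) * p = N.B) :
    FF p (fun m => fam tree5.tr T5'.G5 m + (fam tree3.tr T3'.G3 m + (fam tree1.tr T1'.G1 m +
      (fam treeM.tr TV.GV m + (fam treeD.tr TD.GD m + fam tree5.tr (N.GN T5') m)))))
      (fun m => (TV.PA : ℤ) * fam treeM.tr TV.GA m + (N.A : ℤ) * fam tree5.tr (N.HM T5') m)
      (fun m => (TD.A : ℤ) * fam treeD.tr TD.HD m) :=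
  ((ff_5 g5 p5).add ((ff_3 g3 p3).add ((ff_1 g1 p1).add ((ff_V gV hG hA hV).add
    ((ff_D gD hD).add (ff_N g5 gN hP hN)))))).congr (fun _ => rfl) (fun m => by ring)
    (fun m => by ring)

/-! ## Final theorems -/

/-- Two certificates. -/
theorem final_two {a b N c κ C : ℕ} {S S' A B : ℕ → ℤ} (ha : 0 < a) (hc : 0 < c)
    (hS : FF ((b : ℝ) / a) S A B) (iS' : Inv7 S')
    (hS' : ∀ (n : ℕ) (E : Fin n → Fin n → Fin n → Bool) (w : Fin n → ℝ), Opt E w →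
      (b : ℝ) / a ≤ dens E w → 0 ≤ Em E w S')
    (h1 : ∀ m ∈ KE.reps7, S m ≤ N * (35 * b - a * (pcn m : ℤ)))
    (h2 : ∀ m ∈ KE.reps7, (c : ℤ) + A m - B m + κ * (a * (pcn m : ℤ) - 35 * b) + S' m ≤
      35 * a * N)
    (h3 : ∀ m ∈ KE.reps7, B m ≤ C) : L ≤ (b : ℝ) / a :=
  assemblyG ha hc hS.iS iS' hS.iA hS.iB h1 h2 h3 hS.ok hS'

/-- One certificate, slope condition pointwise. -/
theorem final_one {a b N c κ C : ℕ} {S A B : ℕ → ℤ} (ha : 0 < a) (hc : 0 < c)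
    (hS : FF ((b : ℝ) / a) S A B)
    (h1 : ∀ m ∈ KE.reps7, S m ≤ N * (35 * b - a * (pcn m : ℤ)))
    (h2 : ∀ m ∈ KE.reps7, (c : ℤ) + A m - B m + κ * (a * (pcn m : ℤ) - 35 * b) ≤ 35 * a * N)
    (h3 : ∀ m ∈ KE.reps7, B m ≤ C) : L ≤ (b : ℝ) / a :=
  final_two (κ := κ) (S' := fun _ => 0) ha hc hS (Inv7.const 0)
    (fun n E w ho _ => by rw [Em_const E ho.wt]; simp) h1
    (fun m hm => by have := h2 m hm; linarith) h3

/-- A second certificate consisting of squares. -/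
theorem sos_nonneg {T5' T3' T1' : Tab} {gens : ℕ → List (List ℕ)}
    {cert : List (ℕ × List (List ℕ))} {AT : ℕ → ℕ → BT}
    (g5 : T5'.Good gens cert) (p5 : ∀ t < T5'.NT, PsdT T5' t)
    (g3 : T3'.Good3 AT) (p3 : ∀ t < 2, PsdT T3' t)
    (g1 : T1'.Good1) (p1 : PsdT T1' 0) {n : ℕ} {E : Fin n → Fin n → Fin n → Bool}
    {w : Fin n → ℝ} (ho : Opt E w) :
    0 ≤ Em E w (fun m => fam tree5.tr T5'.G5 m + (fam tree3.tr T3'.G3 m +
      fam tree1.tr T1'.G1 m)) := by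
  rw [Em_add, Em_add, Em_fam ho.free ho.wt _ invT5, Em_fam ho.free ho.wt _ invT3,
    Em_fam ho.free ho.wt _ invT1]
  have h5 := em_G5 g5 p5 E ho.wt.nn
  have h3 := em_G3 g3 p3 E ho.wt.nn
  have h1 := em_G1 g1 p1 E ho.wt.nn
  positivity

end KC
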