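import Pool.Agent.Helper25.K4.Parts
import Pool.Agent.Helper41.KD.D
import Pool.Agent.Helper91.KF.F7

set_option autoImplicit false

/-!
# The sum over the families

`FOK p S A B`: the integer function `S` of masks is a valid certificate function at the bound `p`;
`A` is its derivative with respect to `L`, `B` its derivative with respect to the density.
-/

open Finset

namespace KC

open KF

/-- Validity of a certificate function. -/
def FOK (p : ℝ) (S A B : ℕ → ℤ) : Prop :=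
  ∀ η : ℝ, 0 < η → ∃ θ : ℝ, 0 < θ ∧ ∀ (n : ℕ) (E : Fin n → Fin n → Fin n → Bool)
    (w : Fin n → ℝ), Opt E w → L - θ < dens E w →
    (p - L) * Em E w A + (dens E w - p) * Em E w B - η ≤ Em E w S

theorem FOK.add {p : ℝ} {S A B S' A' B' : ℕ → ℤ} (h : FOK p S A B) (h' : FOK p S' A' B') :
    FOK p (fun m => S m + S' m) (fun m => A m + A' m) (fun m => B m + B' m) := by
  intro η hη
  obtain ⟨θ, hθ, g⟩ := h (η / 2) (by positivity)
  obtain ⟨θ', hθ', g'⟩ := h' (η / 2) (by positivity)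
  refine ⟨min θ θ', lt_min hθ hθ', fun n E w ho hd => ?_⟩
  have h1 := g n E w ho (lt_of_le_of_lt (by linarith [min_le_left θ θ']) hd)
  have h2 := g' n E w ho (lt_of_le_of_lt (by linarith [min_le_right θ θ']) hd)
  rw [Em_add, Em_add, Em_add]
  linarith

/-- A function with nonnegative expectation. -/
theorem FOK.of_nonneg {p : ℝ} {S : ℕ → ℤ} (h : ∀ (n : ℕ) (E : Fin n → Fin n → Fin n → Bool)
    (w : Fin n → ℝ), Opt E w → 0 ≤ Em E w S) : FOK p S (fun _ => 0) (fun _ => 0) := by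
  intro η hη
  refine ⟨1, one_pos, fun n E w ho _ => ?_⟩
  have h1 := h n E w ho
  rw [Em_const E ho.wt]
  push_cast
  linarith

/-- An inequality with a linear error term. -/
theorem FOK.of_lin {p K : ℝ} {S A B : ℕ → ℤ} (h : ∀ (n : ℕ) (E : Fin n → Fin n → Fin n → Bool)
    (w : Fin n → ℝ), Opt E w →
    (p - L) * Em E w A + (dens E w - p) * Em E w B - K * (L - dens E w) ≤ Em E w S) :
    FOK p S A B := by
  intro η hη
  refine ⟨η / (|K| + 1), by positivity, fun n E w ho hd => ?_⟩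
  have h1 := h n E w ho
  have h2 : dens E w ≤ L := dens_le_L ho.free ho.wt
  have h4 : K * (L - dens E w) ≤ (|K| + 1) * (L - dens E w) :=
    mul_le_mul_of_nonneg_right (by linarith [le_abs_self K]) (by linarith)
  have h5 : (|K| + 1) * (L - dens E w) ≤ (|K| + 1) * (η / (|K| + 1)) :=
    mul_le_mul_of_nonneg_left (by linarith) (by positivity)
  have h6 : (|K| + 1) * (η / (|K| + 1)) = η := by field_simp
  linarith

/-- Symmetrisation. -/
theorem FOK.fam {p : ℝ} {g a b : ℕ → ℤ} (h : FOK p g a b) {Tr gens : List (List ℕ)}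
    {certs : List (List (ℕ × List ℕ))} (hTr : invAll Tr gens certs = true) :
    FOK p (fam Tr g) (fam Tr a) (fam Tr b) := by
  intro η hη
  obtain ⟨θ, hθ, h1⟩ := h (η / ((Tr.length : ℝ) + 1)) (by positivity)
  refine ⟨θ, hθ, fun n E w ho hd => ?_⟩
  rw [Em_fam ho.free ho.wt g hTr, Em_fam ho.free ho.wt a hTr, Em_fam ho.free ho.wt b hTr]
  have h2 := h1 n E w ho hd
  have h3 : (Tr.length : ℝ) * ((p - L) * Em E w a + (dens E w - p) * Em E w b -
      η / ((Tr.length : ℝ) + 1)) ≤ (Tr.length : ℝ) * Em E w g :=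
    mul_le_mul_of_nonneg_left h2 (Nat.cast_nonneg _)
  have h4 : (Tr.length : ℝ) * (η / ((Tr.length : ℝ) + 1)) ≤ η := by
    rw [← mul_div_assoc, div_le_iff₀ (by positivity)]
    nlinarith
  nlinarith

/-- Change of the names of the functions. -/
theorem FOK.congr {p : ℝ} {S A B S' A' B' : ℕ → ℤ} (h : FOK p S A B) (h1 : ∀ m, S' m = S m)
    (h2 : ∀ m, A' m = A m) (h3 : ∀ m, B' m = B m) : FOK p S' A' B' := by
  obtain rfl : S' = S := funext h1
  obtain rfl : A' = A := funext h2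
  obtain rfl : B' = B := funext h3
  exact h

/-- A nonnegative multiple. -/
theorem FOK.smul {p : ℝ} {S A B : ℕ → ℤ} (h : FOK p S A B) (c : ℕ) :
    FOK p (fun m => (c : ℤ) * S m) (fun m => (c : ℤ) * A m) (fun m => (c : ℤ) * B m) := by
  intro η hη
  obtain ⟨θ, hθ, h1⟩ := h (η / ((c : ℝ) + 1)) (by positivity)
  refine ⟨θ, hθ, fun n E w ho hd => ?_⟩
  rw [Em_smul, Em_smul, Em_smul]
  have h2 := h1 n E w ho hd
  have h3 : (c : ℝ) * ((p - L) * Em E w A + (dens E w - p) * Em E w B -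
      η / ((c : ℝ) + 1)) ≤ (c : ℝ) * Em E w S :=
    mul_le_mul_of_nonneg_left h2 (Nat.cast_nonneg _)
  have h4 : (c : ℝ) * (η / ((c : ℝ) + 1)) ≤ η := by
    rw [← mul_div_assoc, div_le_iff₀ (by positivity)]
    nlinarith
  push_cast
  nlinarith

/-! ## The families -/

/-- The square part. -/
theorem fok_G5 {p : ℝ} {T : Tab} {gens : ℕ → List (List ℕ)} {cert : List (ℕ × List (List ℕ))}
    (h : T.Good gens cert) (hp : ∀ t < T.NT, PsdT T t) : FOK p T.G5 (fun _ => 0) (fun _ => 0) :=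
  FOK.of_nonneg fun _ E _ ho => em_G5 h hp E ho.wt.nn

theorem fok_G3 {p : ℝ} {T : Tab} {AT : ℕ → ℕ → BT} (h : T.Good3 AT) (hp : ∀ t < 2, PsdT T t) :
    FOK p T.G3 (fun _ => 0) (fun _ => 0) :=
  FOK.of_nonneg fun _ E _ ho => em_G3 h hp E ho.wt.nn

theorem fok_G1 {p : ℝ} {T : Tab} (h : T.Good1) (hp : PsdT T 0) :
    FOK p T.G1 (fun _ => 0) (fun _ => 0) :=
  FOK.of_nonneg fun _ E _ ho => em_G1 h hp E ho.wt.nn

/-- The degree equations (a multiplier of any sign). -/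
theorem fok_GD {T : TabD} {p : ℝ} (hA : (T.A : ℝ) * p = T.B) :
    FOK p T.GD (fun _ => 0) (fun m => (T.A : ℤ) * T.HD m) := by
  refine FOK.of_lin (K := 0) fun n E w ho => ?_
  have h1 := TabD.Ev_GD (T := T) ho
  rw [Em_const E ho.wt, Em_smul]
  unfold Em
  rw [h1]
  simp only [TabD.HD]
  push_cast
  have : (T.A : ℝ) * dens E w - T.B = (dens E w - p) * T.A := by rw [← hA]; ring
  rw [this]
  linarith

/-! ### The families with four roots -/

/-- Integer form of the integrand of (V) at the bound `b / a`. -/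
def gVz (a b : ℕ) (μ : ℕ → ℕ) (G C : ℕ → ℕ → ℕ) (m : ℕ) : ℤ :=
  (μ (m % 16) : ℤ) * (
    (G (m % 16) (m / 16 % 64) : ℤ) *
      (((C (m % 16) (m / 2 ^ 10 % 64) : ℤ) + C (m % 16) (m / 2 ^ 20 % 64) -
        C (m % 16) (m / 2 ^ 10 % 64) * C (m % 16) (m / 2 ^ 20 % 64)) *
          (a * ((m.testBit 34).toNat : ℤ)) -
        b * (C (m % 16) (m / 2 ^ 10 % 64) * C (m % 16) (m / 2 ^ 20 % 64))) +
    (G (m % 16) (m / 2 ^ 10 % 64) : ℤ) *
      (((C (m % 16) (m / 16 % 64) : ℤ) + C (m % 16) (m / 2 ^ 20 % 64) -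
        C (m % 16) (m / 16 % 64) * C (m % 16) (m / 2 ^ 20 % 64)) *
          (a * ((m.testBit 34).toNat : ℤ)) -
        b * (C (m % 16) (m / 16 % 64) * C (m % 16) (m / 2 ^ 20 % 64))) +
    (G (m % 16) (m / 2 ^ 20 % 64) : ℤ) *
      (((C (m % 16) (m / 16 % 64) : ℤ) + C (m % 16) (m / 2 ^ 10 % 64) -
        C (m % 16) (m / 16 % 64) * C (m % 16) (m / 2 ^ 10 % 64)) *
          (a * ((m.testBit 34).toNat : ℤ)) -
        b * (C (m % 16) (m / 16 % 64) * C (m % 16) (m / 2 ^ 10 % 64))) +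
    (C (m % 16) (m / 16 % 64) : ℤ) * C (m % 16) (m / 2 ^ 10 % 64) *
      C (m % 16) (m / 2 ^ 20 % 64) * (b - a * ((m.testBit 34).toNat : ℤ)))

/-- Its derivative with respect to `L`. -/
def dVz (a : ℕ) (μ : ℕ → ℕ) (G C : ℕ → ℕ → ℕ) (m : ℕ) : ℤ :=
  (a : ℤ) * ((μ (m % 16) : ℤ) * (
    (C (m % 16) (m / 16 % 64) : ℤ) * C (m % 16) (m / 2 ^ 10 % 64) *
      C (m % 16) (m / 2 ^ 20 % 64) -
    (G (m % 16) (m / 16 % 64) : ℤ) *
      (C (m % 16) (m / 2 ^ 10 % 64) * C (m % 16) (m / 2 ^ 20 % 64)) -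
    (G (m % 16) (m / 2 ^ 10 % 64) : ℤ) *
      (C (m % 16) (m / 16 % 64) * C (m % 16) (m / 2 ^ 20 % 64)) -
    (G (m % 16) (m / 2 ^ 20 % 64) : ℤ) *
      (C (m % 16) (m / 16 % 64) * C (m % 16) (m / 2 ^ 10 % 64))))

theorem toNat_b2r (x : Bool) : ((x.toNat : ℕ) : ℝ) = b2r x := by
  unfold b2r
  cases x <;> simp

theorem gVz_cast {a b : ℕ} {p : ℝ} (hab : (a : ℝ) * p = b) (μ : ℕ → ℕ) (G C : ℕ → ℕ → ℕ)
    (m : ℕ) : ((gVz a b μ G C m : ℤ) : ℝ) = a * gV (fun r => (μ r : ℝ)) (fun r l => (G r l : ℝ))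
      (fun r l => (C r l : ℝ)) p m := by
  unfold gVz gV
  push_cast
  rw [toNat_b2r, ← hab]
  ring

theorem dVz_cast (a : ℕ) (μ : ℕ → ℕ) (G C : ℕ → ℕ → ℕ)
    (m : ℕ) : ((dVz a μ G C m : ℤ) : ℝ) = a * dV (fun r => (μ r : ℝ)) (fun r l => (G r l : ℝ))
      (fun r l => (C r l : ℝ)) m := by
  unfold dVz dV
  push_cast
  ring

/-- The expectation of a multiplier is bounded. -/
theorem ev_mu_le {V : Type} [Fintype V] (E : V → V → V → Bool) {w : V → ℝ} (hw : Wt w)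
    (k : ℕ) (μ : ℕ → ℕ) : Ev 7 w (fun φ => (μ (msk E φ % 2 ^ k) : ℝ)) ≤
      ((∑ r ∈ range (2 ^ k), μ r : ℕ) : ℝ) := by
  rw [← Ev_const 7 w hw.one ((∑ r ∈ range (2 ^ k), μ r : ℕ) : ℝ)]
  refine Ev_mono 7 w hw.nn fun φ => ?_
  exact_mod_cast Finset.single_le_sum (f := μ) (fun _ _ => Nat.zero_le _)
    (Finset.mem_range.2 (Nat.mod_lt (msk E φ) (by positivity)))

/-- The family (V); `G = 0` is (M), `G = C` is (R). -/
theorem fok_gV {a b : ℕ} {p : ℝ} (hab : (a : ℝ) * p = b) {μ : ℕ → ℕ} {G C : ℕ → ℕ → ℕ}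
    (hGC : ∀ r l, G r l ≤ C r l) (hC : ∀ r l, C r l ≤ 1) :
    FOK p (gVz a b μ G C) (dVz a μ G C) (fun _ => 0) := by
  refine FOK.of_lin (K := 2 * a * ((∑ r ∈ range (2 ^ 4), μ r : ℕ) : ℝ)) fun n E w ho => ?_
  have h1 := kcV ho (μ := fun r => (μ r : ℝ)) (G := fun r l => (G r l : ℝ))
    (C := fun r l => (C r l : ℝ)) (fun r => Nat.cast_nonneg _) (fun r l => Nat.cast_nonneg _)
    (fun r l => by exact_mod_cast hGC r l) (fun r l => by exact_mod_cast hC r l)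
  have h2 := ev_mu_le E ho.wt 4 μ
  have h3 : dens E w ≤ L := dens_le_L ho.free ho.wt
  rw [Em_const E ho.wt]
  unfold Em
  have e1 : Ev 7 w (fun φ => ((gVz a b μ G C (msk E φ) : ℤ) : ℝ)) =
      a * Ev 7 w (fun φ => gV (fun r => (μ r : ℝ)) (fun r l => (G r l : ℝ))
        (fun r l => (C r l : ℝ)) L (msk E φ)) + (p - L) *
        (a * Ev 7 w (fun φ => dV (fun r => (μ r : ℝ)) (fun r l => (G r l : ℝ))
        (fun r l => (C r l : ℝ)) (msk E φ))) := by
    rw [← Ev_mul, ← Ev_mul, ← Ev_mul, ← Ev_add]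
    refine Ev_congr 7 w fun φ => ?_
    rw [gVz_cast hab, gV_split _ _ _ L p]
    ring
  have e2 : Ev 7 w (fun φ => ((dVz a μ G C (msk E φ) : ℤ) : ℝ)) =
      a * Ev 7 w (fun φ => dV (fun r => (μ r : ℝ)) (fun r l => (G r l : ℝ))
        (fun r l => (C r l : ℝ)) (msk E φ)) := by
    rw [← Ev_mul]
    exact Ev_congr 7 w fun φ => dVz_cast a μ G C _
  rw [e1, e2]
  have h4 : (a : ℝ) * (-(2 * (L - dens E w)) * Ev 7 w (fun φ => (μ (msk E φ % 16) : ℝ))) ≤
      a * Ev 7 w (fun φ => gV (fun r => (μ r : ℝ)) (fun r l => (G r l : ℝ))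
        (fun r l => (C r l : ℝ)) L (msk E φ)) := mul_le_mul_of_nonneg_left h1 (Nat.cast_nonneg _)
  have h5 : (a : ℝ) * ((2 * (L - dens E w)) * Ev 7 w (fun φ => (μ (msk E φ % 16) : ℝ))) ≤
      a * ((2 * (L - dens E w)) * ((∑ r ∈ range (2 ^ 4), μ r : ℕ) : ℝ)) :=
    mul_le_mul_of_nonneg_left (mul_le_mul_of_nonneg_left h2 (by linarith)) (Nat.cast_nonneg _)
  simp only [Int.cast_zero, mul_zero, add_zero]
  linarith

end KC
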